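import Pool.Agent.H.MP_501377_al.Act

set_option autoImplicit false

namespace Pool.Agent.Results.MP_501377_al.Universal

open Pool.Agent.H501377 UniformSpace Filter Topology

universe u

noncomputable def dX : ℕ → ℕ → ℝ := exists_generic.choose

lemma dX_pm : PM dX := exists_generic.choose_spec.1

def X0 : Type := ℕ

noncomputable instance : PseudoMetricSpace X0 where
  dist := dX
  dist_self := dX_pm.self
  dist_comm := dX_pm.comm
  dist_triangle := dX_pm.tri

instance : Countable X0 := inferInstanceAs (Countable ℕ)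

abbrev X : Type := Completion X0

def pt0 (n : ℕ) : X0 := n
noncomputable def pt (n : ℕ) : X := (pt0 n : X0)

lemma dist_pt (i j : ℕ) : dist (pt i) (pt j) = dX i j := Completion.dist_eq _ _

lemma dense_pt : DenseRange pt := Completion.denseRange_coe (α := X0)

noncomputable def L (n : ℕ) : ℝ := 1 + n * (1 + ∑ i ∈ Finset.range (n + 1), dX i 0)

lemma sum_nonneg (n : ℕ) : 0 ≤ ∑ i ∈ Finset.range n, dX i 0 :=
  Finset.sum_nonneg fun i _ => dX_pm.nonneg _ _

lemma L_mono : Monotone L := by
  refine monotone_nat_of_le_succ fun n => ?_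
  unfold L
  rw [Finset.sum_range_succ _ (n + 1)]
  have := sum_nonneg (n + 1)
  have := dX_pm.nonneg (n + 1) 0
  have : (0 : ℝ) ≤ n := n.cast_nonneg
  push_cast
  nlinarith

lemma L_zero : L 0 = 1 := by simp [L]

lemma L_pos (n : ℕ) : 0 < L n := by
  have := L_mono (Nat.zero_le n)
  rw [L_zero] at this
  linarith

lemma L_ge (n : ℕ) : 1 + n * (1 + dX n 0) ≤ L n := by
  unfold L
  rw [Finset.sum_range_succ]
  have := sum_nonneg n
  have : (0 : ℝ) ≤ n := n.cast_nonneg
  nlinarith

def G : Type := X ≃ᵢ X

noncomputable instance : Group G := inferInstanceAs (Group (X ≃ᵢ X))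

def ap (g : G) : X ≃ᵢ X := g

lemma ap_mul (g h : G) (x : X) : ap (g * h) x = ap g (ap h x) := rfl

noncomputable def term (g h : G) (n : ℕ) : ℝ := dist (ap g (pt n)) (ap h (pt n)) / L n

lemma term_nonneg (g h : G) (n : ℕ) : 0 ≤ term g h n := div_nonneg dist_nonneg (L_pos n).le

lemma term_le (g h : G) (n : ℕ) : n * term g h n ≤ 2 + dist (ap g (pt 0)) (ap h (pt 0)) := by
  have h1 := dist_triangle4 (ap g (pt n)) (ap g (pt 0)) (ap h (pt 0)) (ap h (pt n))
  rw [(ap g).dist_eq, (ap h).dist_eq, dist_pt, dist_pt, dX_pm.comm 0 n] at h1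
  have h2 := L_ge n
  have h3 := dX_pm.nonneg n 0
  have h4 : 0 ≤ dist (ap g (pt 0)) (ap h (pt 0)) := dist_nonneg
  have h5 : (0 : ℝ) ≤ n := n.cast_nonneg
  unfold term
  rw [← mul_div_assoc, div_le_iff₀ (L_pos n)]
  set C := dist (ap g (pt 0)) (ap h (pt 0))
  have h6 : (2 + C) * (1 + n * (1 + dX n 0)) ≤ (2 + C) * L n :=
    mul_le_mul_of_nonneg_left h2 (by linarith)
  have h7 : n * dist (ap g (pt n)) (ap h (pt n)) ≤ n * (dX n 0 + C + dX n 0) :=
    mul_le_mul_of_nonneg_left h1 h5
  have h8 : 0 ≤ n * C * dX n 0 := by positivity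
  nlinarith

lemma term_bdd (g h : G) : BddAbove (Set.range (term g h)) := by
  refine ⟨2 + dist (ap g (pt 0)) (ap h (pt 0)), ?_⟩
  rintro _ ⟨n, rfl⟩
  rcases n with _ | n
  · unfold term
    rw [L_zero, div_one]
    linarith
  · have h1 := term_le g h (n + 1)
    have h2 := term_nonneg g h (n + 1)
    have h5 : (0 : ℝ) ≤ n := n.cast_nonneg
    push_cast at h1
    nlinarith

lemma ext_pt {g h : G} (e : ∀ n, ap g (pt n) = ap h (pt n)) : g = h :=
  IsometryEquiv.ext (congrFun (dense_pt.equalizer (ap g).continuous (ap h).continuous (funext e)))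

noncomputable instance : MetricSpace G where
  dist g h := ⨆ n, term g h n
  dist_self g := by simp [term]
  dist_comm g h := by simp only [term, dist_comm]
  dist_triangle g h k := by
    refine ciSup_le fun n => ?_
    have h1 := le_ciSup (term_bdd g h) n
    have h2 := le_ciSup (term_bdd h k) n
    have h3 : term g k n ≤ term g h n + term h k n := by
      unfold term
      rw [← add_div]
      exact div_le_div_of_nonneg_right (dist_triangle _ _ _) (L_pos n).le
    linarith
  eq_of_dist_eq_zero := by
    intro g h e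
    refine ext_pt fun n => ?_
    have h1 : term g h n ≤ 0 := (le_ciSup (term_bdd g h) n).trans e.le
    unfold term at h1
    rw [div_le_iff₀ (L_pos n), zero_mul] at h1
    exact dist_le_zero.1 h1

lemma dist_def (g h : G) : dist g h = ⨆ n, term g h n := rfl

lemma tendsto_of_pt {α : Type} {l : Filter α} {f : α → G} {g : G}
    (h : ∀ n, Tendsto (fun a => ap (f a) (pt n)) l (𝓝 (ap g (pt n)))) : Tendsto f l (𝓝 g) := by
  rw [Metric.tendsto_nhds]
  intro ε hε
  obtain ⟨M, hM⟩ := exists_nat_gt (3 / (ε / 2))
  have h1 : ∀ᶠ a in l, ∀ n ∈ Finset.range M, dist (ap (f a) (pt n)) (ap g (pt n)) < ε / 2 * L n :=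
    (Filter.eventually_all_finset _).2 fun n _ =>
      Metric.tendsto_nhds.1 (h n) _ (mul_pos (half_pos hε) (L_pos n))
  filter_upwards [h1, Metric.tendsto_nhds.1 (h 0) 1 one_pos] with a ha hb
  refine lt_of_le_of_lt (ciSup_le fun n => ?_) (half_lt_self hε)
  by_cases hn : n < M
  · exact ((div_lt_iff₀ (L_pos n)).2 (ha n (Finset.mem_range.2 hn))).le
  · have h2 := term_le (f a) g n
    have h3 := term_nonneg (f a) g n
    have h4 : (M : ℝ) ≤ n := by exact_mod_cast not_lt.1 hn
    rw [div_lt_iff₀ (half_pos hε)] at hM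
    by_contra hc
    push Not at hc
    have h5 : (0 : ℝ) ≤ M := M.cast_nonneg
    nlinarith

lemma cont_pt (n : ℕ) : Continuous fun g : G => ap g (pt n) := by
  refine (LipschitzWith.of_dist_le_mul (K := ⟨L n, (L_pos n).le⟩) fun g h => ?_).continuous
  have := le_ciSup (term_bdd g h) n
  unfold term at this
  rw [div_le_iff₀ (L_pos n), mul_comm] at this
  exact this

lemma cont_ap : Continuous fun p : G × X => ap p.1 p.2 :=
  continuous_prod_of_dense_continuous_lipschitzWith' (fun p : G × X => ap p.1 p.2) 1 dense_pt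
    (fun g => (ap g).isometry.lipschitz) (by rintro _ ⟨n, rfl⟩; exact cont_pt n)

instance : IsTopologicalGroup G where
  continuous_mul := continuous_iff_continuousAt.2 fun p => tendsto_of_pt fun n =>
    (cont_ap.comp (continuous_fst.prodMk ((cont_pt n).comp continuous_snd))).tendsto p
  continuous_inv := continuous_iff_continuousAt.2 fun g => tendsto_of_pt fun n => by
    rw [tendsto_iff_dist_tendsto_zero]
    have h1 : ∀ h : G, dist (ap h⁻¹ (pt n)) (ap g⁻¹ (pt n)) =
        dist (ap g (ap g⁻¹ (pt n))) (ap h (ap g⁻¹ (pt n))) := by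
      intro h
      rw [← (ap h).dist_eq, ← ap_mul, ← ap_mul g, mul_inv_cancel, mul_inv_cancel]
    simp only [h1]
    have h2 : Continuous fun h : G => dist (ap g (ap g⁻¹ (pt n))) (ap h (ap g⁻¹ (pt n))) :=
      continuous_const.dist (cont_ap.comp (continuous_id.prodMk continuous_const))
    simpa using h2.tendsto g

instance : TopologicalSpace.SeparableSpace G := by
  have h : IsInducing (fun (g : G) (n : ℕ) => ap g (pt n)) := by
    rw [isInducing_iff_nhds]
    intro g
    refine le_antisymm (continuous_pi cont_pt).continuousAt.le_comap ?_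
    exact tendsto_of_pt (f := id) fun n => tendsto_pi_nhds.1
      (tendsto_comap (f := fun (g : G) (n : ℕ) => ap g (pt n)) (x := 𝓝 fun n => ap g (pt n))) n
  have := h.secondCountableTopology
  infer_instance

def Y (H : Type u) (_e : H × ℕ → H × ℕ → ℝ) : Type u := H × ℕ

/-- There is a separable topological group with a compatible left-invariant metric into which every
such group embeds by an isometric homomorphism. -/
theorem result : ∃ (G : Type) (_ : Group G) (_ : MetricSpace G), IsTopologicalGroup G ∧
    TopologicalSpace.SeparableSpace G ∧ (∀ g x y : G, dist (g * x) (g * y) = dist x y) ∧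
    ∀ (H : Type u) [Group H] [MetricSpace H] [IsTopologicalGroup H]
      [TopologicalSpace.SeparableSpace H], (∀ g x y : H, dist (g * x) (g * y) = dist x y) →
      ∃ φ : H →* G, Function.Injective φ ∧ ∀ x y : H, dist (φ x) (φ y) = dist x y := by
  refine ⟨G, inferInstance, inferInstance, inferInstance, inferInstance, fun g x y => ?_, ?_⟩
  · simp only [dist_def, term, ap_mul, IsometryEquiv.dist_eq]
  intro H _ _ _ _ hH
  have hd : ∀ x y : H, dist (y⁻¹ * x) 1 = dist x y := fun x y => by
    rw [← hH y, mul_inv_cancel_left, mul_one]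
  have hinv : ∀ g : H, dist g⁻¹ 1 = dist g 1 := fun g => by
    rw [← hH g, mul_inv_cancel, mul_one, dist_comm]
  obtain ⟨e, he, e0, eX, eL, eD⟩ := exists_action (H := H) (N := fun g => dist g 1) (dX := dX)
    (L := L) hinv (fun _ => dist_nonneg) (dist_self _)
    (fun g h => by
      have := dist_triangle (g * h) (g * 1) 1
      rw [hH, mul_one] at this
      linarith)
    (fun h ε hε => by
      have hc : Continuous fun g : H => h⁻¹ * g * h := by fun_prop
      obtain ⟨δ, hδ, H⟩ := Metric.continuous_iff.1 hc 1 ε hε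
      exact ⟨δ, hδ, fun g hg => by simpa using (H g hg).le⟩)
    (TopologicalSpace.denseSeq H)
    (fun h ε hε => by
      obtain ⟨a, ha⟩ := (TopologicalSpace.denseRange_denseSeq H).exists_dist_lt h hε
      exact ⟨a, by rw [hd]; exact ha.le⟩)
    dX_pm exists_generic.choose_spec.2 L_mono L_pos L_zero
    (fun c => by
      obtain ⟨n, hn⟩ := exists_nat_ge c
      refine ⟨n, ?_⟩
      have h1 := L_ge n
      have h2 := mul_nonneg (n.cast_nonneg (α := ℝ)) (dX_pm.nonneg n 0)
      nlinarith)
  let _ : PseudoMetricSpace (Y H e) :=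
    { dist := e, dist_self := he.pm.self, dist_comm := he.pm.comm, dist_triangle := he.pm.tri }
  let ι : X0 → Y H e := fun n => ((1 : H), n)
  have hι : Isometry ι := Isometry.of_dist_eq fun i j => eX i j
  have hιd : DenseRange ι := Metric.denseRange_iff.2 fun p ε hε => by
    obtain ⟨n, hn⟩ := eD p ε hε
    exact ⟨n, by rw [dist_comm]; exact hn⟩
  have hΨ : Isometry (Completion.map ι) := hι.completion_map
  have hΨs : Function.Surjective (Completion.map ι) := by
    have h1 : DenseRange (Completion.map ι) := by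
      refine DenseRange.of_comp (g := ((↑) : X0 → X)) ?_
      have : Completion.map ι ∘ ((↑) : X0 → X) = ((↑) : Y H e → Completion (Y H e)) ∘ ι :=
        funext fun n => Completion.map_coe hι.uniformContinuous n
      rw [this]
      exact Completion.denseRange_coe.comp hιd (Completion.continuous_coe _)
    rw [← Set.range_eq_univ, ← hΨ.isClosedEmbedding.isClosed_range.closure_eq]
    exact h1.closure_range
  let Ψ : X ≃ᵢ Completion (Y H e) :=
    ⟨Equiv.ofBijective _ ⟨hΨ.injective, hΨs⟩, hΨ⟩
  have hΨp : ∀ n, Ψ (pt n) = (ι n : Completion (Y H e)) := fun n =>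
    Completion.map_coe hι.uniformContinuous _
  let s : H → Y H e → Y H e := fun g p => sm g p
  have hs : ∀ g, Isometry (s g) := fun g => Isometry.of_dist_eq fun p q => he.inv g p q
  have hss : ∀ g h z, Completion.map (s g) (Completion.map (s h) z) =
      Completion.map (s (g * h)) z := by
    intro g h z
    have := Completion.map_comp (hs g).uniformContinuous (hs h).uniformContinuous
    rw [show s g ∘ s h = s (g * h) from funext fun p => sm_sm g h p] at this
    exact congrFun this z
  have hs1 : ∀ z, Completion.map (s 1) z = z := by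
    intro z
    rw [show s 1 = id from funext fun p => sm_one p, Completion.map_id]
    rfl
  let T : H → Completion (Y H e) ≃ᵢ Completion (Y H e) := fun g =>
    ⟨⟨Completion.map (s g), Completion.map (s g⁻¹),
      fun z => by rw [hss, inv_mul_cancel, hs1], fun z => by rw [hss, mul_inv_cancel, hs1]⟩,
      (hs g).completion_map⟩
  let φ : H →* G := MonoidHom.mk' (fun g => (Ψ.trans (T g)).trans Ψ.symm) (fun g h => by
    refine IsometryEquiv.ext fun x => ?_
    show Ψ.symm (Completion.map (s (g * h)) (Ψ x)) =
      Ψ.symm (Completion.map (s g) (Ψ (Ψ.symm (Completion.map (s h) (Ψ x)))))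
    rw [Ψ.apply_symm_apply, hss])
  have hφ : ∀ x y n, dist (ap (φ x) (pt n)) (ap (φ y) (pt n)) = e (y⁻¹ * x, n) (1, n) := by
    intro x y n
    show dist (Ψ.symm (Completion.map (s x) (Ψ (pt n))))
      (Ψ.symm (Completion.map (s y) (Ψ (pt n)))) = _
    rw [Ψ.symm.dist_eq, hΨp, Completion.map_coe (hs x).uniformContinuous,
      Completion.map_coe (hs y).uniformContinuous, Completion.dist_eq]
    show e (sm x (1, n)) (sm y (1, n)) = _
    rw [← he.inv y⁻¹]
    simp [sm]
  have key : ∀ x y : H, dist (φ x) (φ y) = dist x y := by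
    intro x y
    rw [dist_def, ← hd]
    refine le_antisymm (ciSup_le fun n => ?_) ?_
    · unfold term
      rw [hφ, div_le_iff₀ (L_pos n), mul_comm]
      exact eL n _
    · refine le_trans ?_ (le_ciSup (term_bdd _ _) 0)
      unfold term
      rw [hφ, L_zero, div_one, e0]
  refine ⟨φ, fun x y h => ?_, key⟩
  rw [← dist_eq_zero, ← key, h, dist_self]

end Pool.Agent.Results.MP_501377_al.Universal
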